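import Pool.Agent.Helper127.Kauf.Final

set_option autoImplicit false

open Pool.Agent.Helper127.Kauf

namespace Pool.Agent.Results.MP_995973_gt.KauffmanSeifert

/-- There is an oriented link `L` (diagram `D`) which bounds a Seifert surface `R` such that the
Kauffman polynomial `F_L(a,z)`, evaluated at `a⁻¹`, has least exponent `m` of `a` greater than
`1 - χ(R)`, and so greater than `1 - χ(L)`. Here `p` is the value `Λ_D`: every function `Λ`
satisfying Kauffman's rules takes the value `p • Λ(circle)` at `D`. -/
theorem result :
    ∃ (D : OWord) (R : Strips) (p : Raz) (m : ℤ),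
      OClosed D ∧ IsSurface R ∧ boundary R = D ∧
      (∀ (M : Type) [AddCommGroup M] [Module Raz M] (Λ : Word → M),
        KauffmanRules Λ → Λ (forget D) = p • Λ circle) ∧
      IsLeast (exponentsInv (normalised (writhe D) p)) m ∧
      1 - euler R < m ∧ 1 - chi D < m := by
  refine ⟨link, surf, polyL, 4, oclosed_link, isSurface_surf, rfl, ?_, isLeast_L, ?_, ?_⟩
  · intro M _ _ Λ hΛ
    exact value_L Λ hΛ
  · rw [euler_surf]
    norm_num
  · have := neg_two_le_chi
    omega

end Pool.Agent.Results.MP_995973_gt.KauffmanSeifert
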