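import Pool.Agent.Helper127.Kauf.Final
import Pool.Agent.Helper127.Kauf.Bound
import Pool.Agent.Helper127.Kauf.Exist10

set_option autoImplicit false

open Pool.Agent.Helper127.Kauf

namespace Pool.Agent.Results.MP_995973_gt.MinDegreeVersusChi

/-- There is an oriented link `L` (diagram `D`) for which the least exponent `m` of `a` in the
Kauffman polynomial `F_L(a⁻¹,z)` is greater than `1 - χ(L)`: the link bounds a Seifert surface `R`
with `1 - χ(R) < m`. The Kauffman polynomial (a function `Λ` on diagrams satisfying Kauffman's rules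
with value `1` at the circle) exists, and `p` is its value at `D`; the Euler characteristics of the
Seifert surfaces of `L` have a greatest element `χ(L)`. -/
theorem result :
    ∃ (D : OWord) (R : Strips) (p : Raz) (m : ℤ),
      OClosed D ∧
      (∃ Λ : Word → Raz, KauffmanRules Λ ∧ Λ circle = 1) ∧
      (∀ Λ : Word → Raz, KauffmanRules Λ → Λ circle = 1 → Λ (forget D) = p) ∧
      IsLeast (exponentsInv (normalised (writhe D) p)) m ∧
      IsSurface R ∧ boundary R = D ∧ 1 - euler R < m ∧
      IsGreatest (seifertEuler D) (chi D) ∧ 1 - chi D < m := by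
  refine ⟨link, surf, polyL, 4, oclosed_link, ⟨Ex.Lam Raz, Ex.Lam_rules, Ex.Lam_circle⟩, ?_,
    isLeast_L, isSurface_surf, rfl, ?_, isGreatest_chi mem_seifertEuler, ?_⟩
  · intro Λ hΛ h1
    rw [value_L Λ hΛ, h1, smul_eq_mul, mul_one]
  · rw [euler_surf]
    norm_num
  · have := neg_two_le_chi
    omega

end Pool.Agent.Results.MP_995973_gt.MinDegreeVersusChi
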